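import Pool.Agent.V11103.QDMain

/-!
A system is quasi-disjoint from every ergodic system if and only if it is quasi-disjoint from
itself.
-/

namespace Pool.Agent.Results.MP_e732b6_an.QuasiDisjointIff

open MeasureTheory Pool.Agent.V11103.QD

/-- For every countable group `G` and every `G` system `(X, T, μ)`: the system is quasi-disjoint
from every ergodic `G` system if and only if it is quasi-disjoint from itself. -/
theorem result (G : Type) [Group G] [Countable G]
    (X : Type) [TopologicalSpace X] [CompactSpace X] [TopologicalSpace.MetrizableSpace X]
    [MeasurableSpace X] [BorelSpace X] [MulAction G X] [ContinuousConstSMul G X]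
    (μ : Measure X) [IsProbabilityMeasure μ] [SMulInvariantMeasure G X μ] :
    (∀ (Y : Type) [TopologicalSpace Y] [CompactSpace Y] [TopologicalSpace.MetrizableSpace Y]
      [MeasurableSpace Y] [BorelSpace Y] [MulAction G Y] [ContinuousConstSMul G Y]
      (ν : Measure Y) [IsProbabilityMeasure ν] [SMulInvariantMeasure G Y ν],
      ErgodicSystem G ν → QuasiDisjoint G μ ν) ↔ QuasiDisjoint G μ μ := by
  have hX : PolishSpace X := by
    let _ := TopologicalSpace.metrizableSpaceMetric X
    infer_instance
  constructor
  · intro H
    exact quasiDisjoint_of_ergodic G fun ν' _ _ h => H X ν' h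
  · intro h Y _ _ _ _ _ _ _ ν _ _ _
    exact quasiDisjoint_of_self G h

end Pool.Agent.Results.MP_e732b6_an.QuasiDisjointIff
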